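import Pool.Agent.N594.NT.Stm

/-!
# Project NT (helper594), leaf VH (helper674): a pair of almost full degree inside a part
-/

set_option autoImplicit false

open Finset
open scoped Classical

namespace Pool.Agent.N674.NT.VH

open Pool.Agent.TH200.LP Pool.Agent.N594.NT

/-- the index type of the random vertices -/
abbrev Ix (d : ℕ) {k : ℕ} (i : Fin k) : Type := Fin d ⊕ ({j : Fin k // j ≠ i} × Fin (d + 1))

/-- the labels of the random vertices -/
def lab (d : ℕ) {k : ℕ} (i : Fin k) : Ix d i → Fin k := Sum.elim (fun _ => i) (fun p => p.1.1)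

theorem card_Ix (d : ℕ) {k : ℕ} (i : Fin k) : Fintype.card (Ix d i) = d + (k - 1) * (d + 1) := by
  rw [Fintype.card_sum, Fintype.card_prod, Fintype.card_fin, Fintype.card_fin,
    Fintype.card_subtype_compl, Fintype.card_subtype_eq, Fintype.card_fin]

theorem fib_i (d : ℕ) {k : ℕ} (i : Fin k) (J : Finset (Ix d i)) (h : ∀ p ∈ J, lab d i p = i) :
    J.card ≤ d := by
  have h1 : J ⊆ (univ : Finset (Fin d)).map ⟨Sum.inl, Sum.inl_injective⟩ := by
    intro p hp
    rcases p with a | q
    · rw [mem_map]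
      exact ⟨a, mem_univ a, rfl⟩
    · exact absurd (h _ hp) q.1.2
  have h2 := card_le_card h1
  rw [card_map, card_univ, Fintype.card_fin] at h2
  exact h2

theorem fib (d : ℕ) {k : ℕ} (i j : Fin k) (J : Finset (Ix d i)) (h : ∀ p ∈ J, lab d i p = j) :
    J.card ≤ d + 1 := by
  by_cases hj : j = i
  · rw [hj] at h
    exact (fib_i d i J h).trans (Nat.le_succ d)
  · have h1 : J ⊆ (univ : Finset (Fin (d + 1))).map
        ⟨fun a => (Sum.inr (⟨j, hj⟩, a) : Ix d i), fun a b hab => by
          have h2 := Sum.inr_injective hab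
          exact (Prod.ext_iff.1 h2).2⟩ := by
      intro p hp
      rcases p with a | q
      · exact absurd (h _ hp).symm hj
      · rw [mem_map]
        refine ⟨q.2, mem_univ _, ?_⟩
        have h3 : q.1 = ⟨j, hj⟩ := Subtype.ext (h _ hp)
        exact congrArg Sum.inr (Prod.ext h3.symm rfl)
    have h2 := card_le_card h1
    rw [card_map, card_univ, Fintype.card_fin] at h2
    exact h2

/-- splitting off the element `none` -/
theorem split_none {α V : Type} (s : Finset (Option α)) (g : Option α → V) :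
    (none ∈ s → s.card = (eraseNone s).card + 1 ∧
      s.image g = insert (g none) ((eraseNone s).image fun a => g (some a))) ∧
    (none ∉ s → s.card = (eraseNone s).card ∧
      s.image g = (eraseNone s).image fun a => g (some a)) := by
  have h1 : (eraseNone s).card = (s.erase none).card := by
    rw [← card_map Function.Embedding.some, map_some_eraseNone]
  have h2 : ∀ v, v ∈ (eraseNone s).image (fun a => g (some a)) ↔ ∃ a, some a ∈ s ∧ g (some a) = v := by
    intro v
    rw [mem_image]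
    constructor
    · rintro ⟨a, ha, hv⟩
      exact ⟨a, mem_eraseNone.1 ha, hv⟩
    · rintro ⟨a, ha, hv⟩
      exact ⟨a, mem_eraseNone.2 ha, hv⟩
  constructor
  · intro hn
    refine ⟨?_, ?_⟩
    · rw [h1, card_erase_of_mem hn]
      have := card_pos.2 ⟨none, hn⟩
      omega
    · ext v
      rw [mem_insert, h2, mem_image]
      constructor
      · rintro ⟨a, ha, hv⟩
        rcases a with _ | a
        · exact Or.inl hv.symm
        · exact Or.inr ⟨a, ha, hv⟩
      · rintro (hv | ⟨a, ha, hv⟩)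
        · exact ⟨none, hn, hv.symm⟩
        · exact ⟨some a, ha, hv⟩
  · intro hn
    refine ⟨?_, ?_⟩
    · rw [h1, erase_eq_of_notMem hn]
    · ext v
      rw [h2, mem_image]
      constructor
      · rintro ⟨a, ha, hv⟩
        rcases a with _ | a
        · exact absurd ha hn
        · exact ⟨a, ha, hv⟩
      · rintro ⟨a, ha, hv⟩
        exact ⟨some a, ha, hv⟩

/-- the configuration of the vertices -/
def conf {V ι : Type} (x y : V) (ω : ι → V) : Option (Option ι) → V
  | none => x
  | some none => y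
  | some (some p) => ω p

theorem point (d k : ℕ) (hk : 2 ≤ k) {V : Type} (H : Finset V → Prop) (π : V → Fin k)
    (hF : Fr d k H) (x y : V) (hxy : π x = π y) (ω : Ix d (π x) → V)
    (hω : ∀ p, π (ω p) = lab d (π x) p) :
    (∃ (J : Finset (Ix d (π x))) (p p' : Ix d (π x)), (J.card = d + 2 ∧ p ∈ J ∧ p' ∈ J ∧ p ≠ p') ∧
      π (ω p) ≠ π (ω p') ∧ ¬ H (J.image ω)) ∨
    (∃ J : Finset (Ix d (π x)), J.card = d ∧ ¬ H (insert x (insert y (J.image ω)))) ∨
    (∃ (J : Finset (Ix d (π x))) (p : Ix d (π x)), (J.card = d + 1 ∧ p ∈ J) ∧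
      π x ≠ π (ω p) ∧ ¬ H (insert x (J.image ω))) ∨
    (∃ (J : Finset (Ix d (π x))) (p : Ix d (π x)), (J.card = d + 1 ∧ p ∈ J) ∧
      π y ≠ π (ω p) ∧ ¬ H (insert y (J.image ω))) := by
  have hcard : Fintype.card (Option (Option (Ix d (π x)))) = k * (d + 1) + 1 := by
    rw [Fintype.card_option, Fintype.card_option, card_Ix]
    obtain ⟨k', rfl⟩ : ∃ k', k = k' + 1 := ⟨k - 1, by omega⟩
    rw [Nat.add_sub_cancel]
    ring
  obtain ⟨J0, hJ0, hH⟩ := hF fun a => conf x y ω ((Fintype.equivFinOfCardEq hcard).symm a)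
  obtain ⟨J1, hJ1⟩ : ∃ J1, J1 = J0.image (Fintype.equivFinOfCardEq hcard).symm := ⟨_, rfl⟩
  have hc1 : J1.card = d + 2 := by
    rw [hJ1, card_image_of_injective _ (Equiv.injective _), hJ0]
  have hi1 : J0.image (fun a => conf x y ω ((Fintype.equivFinOfCardEq hcard).symm a)) =
      J1.image (conf x y ω) := by
    rw [hJ1, image_image]
    rfl
  rw [hi1] at hH
  obtain ⟨s1, s2⟩ := split_none J1 (conf x y ω)
  obtain ⟨s3, s4⟩ := split_none (eraseNone J1) (fun a => conf x y ω (some a))
  have hne : ∀ J : Finset (Ix d (π x)), J.card = d + 1 → ∃ p ∈ J, π x ≠ π (ω p) := by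
    intro J hJ
    by_contra hcon
    push Not at hcon
    have h1 := fib_i d (π x) J fun p hp => by rw [← hω p]; exact (hcon p hp).symm
    omega
  by_cases c1 : none ∈ J1
  · obtain ⟨e1, e2⟩ := s1 c1
    by_cases c2 : none ∈ eraseNone J1
    · obtain ⟨e3, e4⟩ := s3 c2
      right; left
      refine ⟨eraseNone (eraseNone J1), by omega, ?_⟩
      rw [e2, e4] at hH
      exact hH
    · obtain ⟨e3, e4⟩ := s4 c2
      right; right; left
      have hJ : (eraseNone (eraseNone J1)).card = d + 1 := by omega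
      obtain ⟨p, hp, hp2⟩ := hne _ hJ
      refine ⟨eraseNone (eraseNone J1), p, ⟨hJ, hp⟩, hp2, ?_⟩
      rw [e2, e4] at hH
      exact hH
  · obtain ⟨e1, e2⟩ := s2 c1
    by_cases c2 : none ∈ eraseNone J1
    · obtain ⟨e3, e4⟩ := s3 c2
      right; right; right
      have hJ : (eraseNone (eraseNone J1)).card = d + 1 := by omega
      obtain ⟨p, hp, hp2⟩ := hne _ hJ
      refine ⟨eraseNone (eraseNone J1), p, ⟨hJ, hp⟩, hxy ▸ hp2, ?_⟩
      rw [e2, e4] at hH
      exact hH
    · obtain ⟨e3, e4⟩ := s4 c2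
      left
      have hJ : (eraseNone (eraseNone J1)).card = d + 2 := by omega
      have h1 : ∃ p ∈ eraseNone (eraseNone J1), ∃ p' ∈ eraseNone (eraseNone J1),
          π (ω p) ≠ π (ω p') := by
        by_contra hcon
        push Not at hcon
        obtain ⟨p0, hp0⟩ : (eraseNone (eraseNone J1)).Nonempty := by
          rw [← card_pos]
          omega
        have h2 := fib d (π x) (π (ω p0)) _ fun p hp => by
          rw [← hω p]
          exact hcon p hp p0 hp0
        omega
      obtain ⟨p, hp, p', hp', hpp⟩ := h1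
      refine ⟨eraseNone (eraseNone J1), p, p', ⟨hJ, hp, hp', ?_⟩, hpp, ?_⟩
      · rintro rfl
        exact hpp rfl
      · rw [e2, e4] at hH
        exact hH

theorem av_sum_le {Ω τ : Type} [Fintype Ω] [Fintype τ] (f : τ → Ω → ℝ) (r : ℝ)
    (h : ∀ q, av (f q) ≤ r) : (av fun ω => ∑ q, f q ω) ≤ (Fintype.card τ : ℝ) * r := by
  rw [av_sum]
  refine (sum_le_card_nsmul univ _ r fun q _ => h q).trans (le_of_eq ?_)
  rw [nsmul_eq_mul, card_univ]

theorem av_inst {Ω : Type} (i1 i2 : Fintype Ω) (f : Ω → ℝ) : @av Ω i1 f = @av Ω i2 f := by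
  rw [Subsingleton.elim i1 i2]

theorem cdg_le (d : ℕ) {V : Type} [Fintype V] [Nonempty V] (H : Finset V → Prop) (x y : V) :
    cdg d H x y ≤ 1 := av_le_one fun _ => ind_le_one _

theorem rs_nonneg (d : ℕ) {V κ : Type} [Fintype V] [Nonempty V] (H : Finset V → Prop) (π : V → κ)
    (x : V) : 0 ≤ rs d H π x :=
  av_nonneg fun y => mul_nonneg (ind_nonneg _) (sub_nonneg.2 (cdg_le d H x y))

theorem ls_nonneg (d : ℕ) {V κ : Type} [Fintype V] [Nonempty V] (H : Finset V → Prop) (π : V → κ) :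
    0 ≤ ls d H π := av_nonneg fun x => rs_nonneg d H π x

theorem av_ind_mul {Ω : Type} [Fintype Ω] [Nonempty Ω] (P : Prop) (f : Ω → ℝ) (r : ℝ) (hr : 0 ≤ r)
    (h : P → av f ≤ r) : (av fun ω => ind P * f ω) ≤ r := by
  rw [av_mul_left]
  by_cases hP : P
  · rw [ind_true hP, one_mul]
    exact h hP
  · rw [ind_false hP, zero_mul]
    exact hr

theorem main (hP0 : Pool.Agent.N594.NT.S_P0) (hP1 : Pool.Agent.N594.NT.S_P1)
    (hP2 : Pool.Agent.N594.NT.S_P2) : Pool.Agent.N594.NT.S_VH := by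
  intro d k hd hk
  obtain ⟨n, hn⟩ : ∃ n, n = d + (k - 1) * (d + 1) := ⟨_, rfl⟩
  obtain ⟨u, hu⟩ : ∃ u : ℝ, u = (1 / (2 * (k : ℝ))) ^ n := ⟨_, rfl⟩
  obtain ⟨N, hN⟩ : ∃ N : ℝ, N = 2 ^ n * ((n : ℝ) + 1) ^ 2 := ⟨_, rfl⟩
  have hk0 : (0 : ℝ) < k := by exact_mod_cast (by omega : 0 < k)
  have hu0 : 0 < u := by rw [hu]; positivity
  have hN0 : 0 < N := by rw [hN]; positivity
  refine ⟨u / (4 * N), by positivity, fun V _ _ H π _ hF hπ hls x y hxy hcd => ?_⟩
  obtain ⟨c, hc⟩ : ∃ c, c = u / (4 * N) := ⟨_, rfl⟩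
  rw [← hc] at hls hcd ⊢
  have hc0 : 0 < c := by rw [hc]; positivity
  have hNc : 4 * (N * c) = u := by
    rw [hc]
    field_simp
  have hcI : Fintype.card (Ix d (π x)) = n := by rw [card_Ix, hn]
  -- the events
  obtain ⟨ta, hta⟩ : ∃ ta : Finset (Ix d (π x)) × Ix d (π x) × Ix d (π x) → (Ix d (π x) → V) → ℝ,
      ta = fun q ω => ind (q.1.card = d + 2 ∧ q.2.1 ∈ q.1 ∧ q.2.2 ∈ q.1 ∧ q.2.1 ≠ q.2.2) *
        (ind (π (ω q.2.1) ≠ π (ω q.2.2)) * ind (¬ H (q.1.image ω))) := ⟨_, rfl⟩
  obtain ⟨tb, htb⟩ : ∃ tb : Finset (Ix d (π x)) → (Ix d (π x) → V) → ℝ,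
      tb = fun J ω => ind (J.card = d) * ind (¬ H (insert x (insert y (J.image ω)))) := ⟨_, rfl⟩
  obtain ⟨tc, htc⟩ : ∃ tc : V → Finset (Ix d (π x)) × Ix d (π x) → (Ix d (π x) → V) → ℝ,
      tc = fun z q ω => ind (q.1.card = d + 1 ∧ q.2 ∈ q.1) *
        (ind (π z ≠ π (ω q.2)) * ind (¬ H (insert z (q.1.image ω)))) := ⟨_, rfl⟩
  have ta0 : ∀ q ω, 0 ≤ ta q ω := fun q ω => by
    rw [hta]; exact mul_nonneg (ind_nonneg _) (mul_nonneg (ind_nonneg _) (ind_nonneg _))
  have tb0 : ∀ q ω, 0 ≤ tb q ω := fun q ω => by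
    rw [htb]; exact mul_nonneg (ind_nonneg _) (ind_nonneg _)
  have tc0 : ∀ z q ω, 0 ≤ tc z q ω := fun z q ω => by
    rw [htc]; exact mul_nonneg (ind_nonneg _) (mul_nonneg (ind_nonneg _) (ind_nonneg _))
  have hpt : ∀ ω : Ix d (π x) → V, ind (∀ p, π (ω p) = lab d (π x) p) ≤
      (∑ q, ta q ω + ∑ q, tb q ω) + (∑ q, tc x q ω + ∑ q, tc y q ω) := by
    intro ω
    have a0 : 0 ≤ ∑ q, ta q ω := sum_nonneg fun q _ => ta0 q ω
    have b0 : 0 ≤ ∑ q, tb q ω := sum_nonneg fun q _ => tb0 q ω
    have c0 : 0 ≤ ∑ q, tc x q ω := sum_nonneg fun q _ => tc0 x q ω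
    have d0 : 0 ≤ ∑ q, tc y q ω := sum_nonneg fun q _ => tc0 y q ω
    by_cases hω : ∀ p, π (ω p) = lab d (π x) p
    · rw [ind_true hω]
      rcases point d k hk H π hF x y hxy ω hω with h | h | h | h
      · obtain ⟨J, p, p', h1, h2, h3⟩ := h
        have h4 : ta (J, p, p') ω = 1 := by
          rw [hta]
          simp only
          rw [ind_true h1, ind_true h2, ind_true h3]
          norm_num
        have h5 := single_le_sum (f := fun q => ta q ω) (fun q _ => ta0 q ω) (mem_univ (J, p, p'))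
        simp only [h4] at h5
        linarith
      · obtain ⟨J, h1, h3⟩ := h
        have h4 : tb J ω = 1 := by
          rw [htb]
          simp only
          rw [ind_true h1, ind_true h3]
          norm_num
        have h5 := single_le_sum (f := fun q => tb q ω) (fun q _ => tb0 q ω) (mem_univ J)
        simp only [h4] at h5
        linarith
      · obtain ⟨J, p, h1, h2, h3⟩ := h
        have h4 : tc x (J, p) ω = 1 := by
          rw [htc]
          simp only
          rw [ind_true h1, ind_true h2, ind_true h3]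
          norm_num
        have h5 := single_le_sum (f := fun q => tc x q ω) (fun q _ => tc0 x q ω) (mem_univ (J, p))
        simp only [h4] at h5
        linarith
      · obtain ⟨J, p, h1, h2, h3⟩ := h
        have h4 : tc y (J, p) ω = 1 := by
          rw [htc]
          simp only
          rw [ind_true h1, ind_true h2, ind_true h3]
          norm_num
        have h5 := single_le_sum (f := fun q => tc y q ω) (fun q _ => tc0 y q ω) (mem_univ (J, p))
        simp only [h4] at h5
        linarith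
    · rw [ind_false hω]
      linarith
  have havg := av_mono hpt
  rw [av_add, av_add, av_add] at havg
  -- the probability of the event
  have hev : u ≤ av fun ω : Ix d (π x) → V => ind (∀ p, π (ω p) = lab d (π x) p) := by
    have e1 : (av fun ω : Ix d (π x) → V => ind (∀ p, π (ω p) = lab d (π x) p)) =
        ∏ p : Ix d (π x), av fun v : V => ind (π v = lab d (π x) p) := by
      rw [← av_prod_gen (fun (p : Ix d (π x)) (v : V) => ind (π v = lab d (π x) p))]
      congr 1
      funext ω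
      exact ind_forall_gen fun p => π (ω p) = lab d (π x) p
    rw [e1, hu, ← hcI, ← card_univ, ← prod_const]
    exact prod_le_prod (fun _ _ => by positivity) fun p _ => hπ _
  -- the averages of the terms
  have h1 := av_sum_le ta (ls d H π) fun q => by
    rw [hta]
    refine av_ind_mul _ _ _ (ls_nonneg d H π) fun hq => le_of_eq ?_
    have h2 := hP0 d V H (Ix d (π x)) q.1 q.2.1 q.2.2 (fun a b => ind (π a ≠ π b)) hq.2.1 hq.2.2.1
      hq.2.2.2 hq.1
    exact (av_inst _ _ _).trans h2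
  have h2 := av_sum_le tb c fun J => by
    rw [htb]
    refine av_ind_mul _ _ _ hc0.le fun hq => ?_
    have h9 : (av fun ω : Ix d (π x) → V => ind (¬ H (insert x (insert y (J.image ω))))) =
        1 - cdg d H x y := (av_inst _ _ _).trans (hP2 d V H (Ix d (π x)) J x y hq)
    rw [h9]
    linarith
  have h3 : ∀ z : V, (av fun ω => ∑ q, tc z q ω) ≤
      (Fintype.card (Finset (Ix d (π x)) × Ix d (π x)) : ℝ) * rs d H π z := fun z =>
    av_sum_le (tc z) (rs d H π z) fun q => by
      rw [htc]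
      refine av_ind_mul _ _ _ (rs_nonneg d H π z) fun hq => le_of_eq ?_
      exact (av_inst _ _ _).trans
        (hP1 d V H (Ix d (π x)) q.1 q.2 z (fun a => ind (π z ≠ π a)) hq.2 hq.1)
  have h4 := h3 x
  have h5 := h3 y
  rw [Fintype.card_prod, Fintype.card_prod, Fintype.card_finset, hcI] at h1
  rw [Fintype.card_finset, hcI] at h2
  rw [Fintype.card_prod, Fintype.card_finset, hcI] at h4 h5
  push_cast at h1 h2 h4 h5
  have hn0 : (0 : ℝ) ≤ n := Nat.cast_nonneg n
  have hp0 : (0 : ℝ) < 2 ^ n := by positivity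
  have n1 : (2 : ℝ) ^ n * ((n : ℝ) * n) ≤ N := by
    rw [hN]
    apply mul_le_mul_of_nonneg_left _ hp0.le
    nlinarith
  have n2 : (2 : ℝ) ^ n ≤ N := by
    rw [hN]
    have : (1 : ℝ) ≤ ((n : ℝ) + 1) ^ 2 := by nlinarith
    nlinarith
  have n3 : (2 : ℝ) ^ n * (n : ℝ) ≤ N := by
    rw [hN]
    apply mul_le_mul_of_nonneg_left _ hp0.le
    nlinarith
  have g1 := mul_le_mul n1 hls (ls_nonneg d H π) hN0.le
  have g2 := mul_le_mul_of_nonneg_right n2 hc0.le
  have g3 := mul_le_mul_of_nonneg_right n3 (rs_nonneg d H π x)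
  have g4 := mul_le_mul_of_nonneg_right n3 (rs_nonneg d H π y)
  have g5 : 2 * (N * c) ≤ N * (rs d H π x + rs d H π y) := by
    have : u ≤ N * c + N * c + (N * rs d H π x + N * rs d H π y) := by linarith
    rw [mul_add]
    linarith
  have g6 : 2 * c ≤ rs d H π x + rs d H π y := by
    have : N * (2 * c) ≤ N * (rs d H π x + rs d H π y) := by linarith
    exact le_of_mul_le_mul_left this hN0
  linarith

end Pool.Agent.N674.NT.VH
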